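import Pool.Agent.H77.BC.Targets

/-!
# Row HZR of the board bcp_modules: rank of `hz`
-/

set_option autoImplicit false

open Set Matrix

namespace Pool.Agent.H36.BCP

open Pool.Agent.H77.BC

theorem pf_HZR {M : Type} (U : RU M) (hA : RKA U) (hB : RKB U) (hK : RKS U) : HZR U := by
  intro K _ _ _ _ k hk H hH
  have hinf : Infinite K := inferInstance
  obtain ⟨-, hK0, -⟩ := hK (K := K)
  -- the map
  let f : K × SpecialLinearGroup (Fin k) K → Matrix (Fin k) (Fin k) K := fun p => p.1 • p.2.val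
  have hf : DFn U f := by
    refine DFn_mat fun i j => ?_
    have e : (fun a : K × SpecialLinearGroup (Fin k) K => f a i j) =
        fun a => a.1 * a.2.val i j := by
      funext a
      simp [f]
    rw [e]
    exact DFn_mul DFn_fst (DFn_comp (DFn_entry i j) (DFn_comp DFn_sval DFn_snd))
  have hz0 : U.D {z : K | z ≠ 0} := D_not (D_eqf DFn_id (DFn_const _))
  let X : Set (K × SpecialLinearGroup (Fin k) K) := {z : K | z ≠ 0} ×ˢ (H : Set _)
  have hX : U.D X := D_prod hz0 hH
  have hne : X.Nonempty := ⟨(1, 1), one_ne_zero, H.one_mem⟩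
  have hmem : ∀ g : GL (Fin k) K, g ∈ (hz H : Set (GL (Fin k) K)) ↔
      ∃ p : K × SpecialLinearGroup (Fin k) K, p ∈ X ∧ g.val = f p := by
    intro g
    constructor
    · rintro ⟨z, A, hA1, e⟩
      exact ⟨(z, A), ⟨z.ne_zero, hA1⟩, e⟩
    · rintro ⟨p, ⟨h1, h2⟩, e⟩
      exact ⟨Units.mk0 p.1 h1, p.2, h2, e⟩
  have hD : U.D (hz H : Set (GL (Fin k) K)) := by
    have h1 : U.D {q : GL (Fin k) K × (K × SpecialLinearGroup (Fin k) K) |
        q.2 ∈ X ∧ q.1.val = f q.2} :=
      D_and (D_subst (p := fun b => b ∈ X) hX DFn_snd)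
        (D_eqf (DFn_comp DFn_val DFn_fst) (DFn_comp hf DFn_snd))
    have h2 := D_exists (p := fun (g : GL (Fin k) K)
      (p : K × SpecialLinearGroup (Fin k) K) => p ∈ X ∧ g.val = f p) h1
    have e : (hz H : Set (GL (Fin k) K)) = {g | ∃ p, p ∈ X ∧ g.val = f p} := by
      ext g
      exact hmem g
    rw [e]
    exact h2
  refine ⟨hD, ?_⟩
  -- the image
  have him : f '' X = (fun g : GL (Fin k) K => (g.val : Matrix (Fin k) (Fin k) K)) ''
      (hz H : Set (GL (Fin k) K)) := by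
    ext B
    constructor
    · rintro ⟨p, hp, rfl⟩
      have hdet : (f p).det ≠ 0 := by
        change (p.1 • p.2.val).det ≠ 0
        rw [Matrix.det_smul, p.2.det_coe, mul_one]
        exact pow_ne_zero _ hp.1
      exact ⟨Matrix.GeneralLinearGroup.mkOfDetNeZero (f p) hdet, (hmem _).2 ⟨p, hp, rfl⟩, rfl⟩
    · rintro ⟨g, hg, rfl⟩
      obtain ⟨p, hp, e⟩ := (hmem g).1 hg
      exact ⟨p, hp, e.symm⟩
  have hone : (1 : GL (Fin k) K) ∈ (hz H : Set (GL (Fin k) K)) := (hz H).one_mem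
  have h1 : U.R ((fun g : GL (Fin k) K => (g.val : Matrix (Fin k) (Fin k) K)) ''
      (hz H : Set (GL (Fin k) K))) = U.R (hz H : Set (GL (Fin k) K)) :=
    hB.inj hD DFn_val ⟨1, hone⟩ (fun a _ b _ h => Units.ext h)
  have h2 : U.R X = U.R (f '' X) + 0 := by
    refine hB.fib_eq hX hf hne ?_
    rintro B ⟨p, hp, rfl⟩
    have hDf : U.D {a | a ∈ X ∧ f a = f p} := D_and hX (D_eqf hf (DFn_const _))
    refine (hA.fin hDf ⟨p, hp, rfl⟩).2 ?_
    refine Set.Finite.of_finite_image (f := Prod.fst) ?_ ?_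
    · have hfin : {z : K | z ^ k = p.1 ^ k}.Finite := by
        have hne0 : (Polynomial.X ^ k - Polynomial.C (p.1 ^ k) : Polynomial K) ≠ 0 :=
          Polynomial.X_pow_sub_C_ne_zero (by omega) _
        refine (Polynomial.finite_setOfPred_isRoot hne0).subset ?_
        intro z hz
        simp only [Set.mem_ofPred_eq, Polynomial.IsRoot.def, Polynomial.eval_sub,
          Polynomial.eval_pow, Polynomial.eval_X, Polynomial.eval_C] at hz ⊢
        rw [hz, sub_self]
      refine hfin.subset ?_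
      rintro z ⟨a, ⟨-, ha⟩, rfl⟩
      have hd := congrArg Matrix.det ha
      change (a.1 • a.2.val).det = (p.1 • p.2.val).det at hd
      rw [Matrix.det_smul, a.2.det_coe, mul_one, Matrix.det_smul, p.2.det_coe, mul_one,
        Fintype.card_fin] at hd
      exact hd
    · rintro a ⟨ha, ha'⟩ b ⟨hb, hb'⟩ hab
      refine Prod.ext hab (Subtype.ext ?_)
      have h3 : a.1 • a.2.val = b.1 • b.2.val := ha'.trans hb'.symm
      rw [← (show a.1 = b.1 from hab)] at h3
      exact smul_right_injective _ (show a.1 ≠ 0 from ha.1) h3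
  have h3 : U.R X = U.R {z : K | z ≠ 0} + U.R (H : Set (SpecialLinearGroup (Fin k) K)) :=
    hB.prod hz0 hH ⟨1, one_ne_zero⟩ ⟨1, H.one_mem⟩
  rw [hK0] at h3
  rw [← h1, ← him]
  omega

end Pool.Agent.H36.BCP
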